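import Pool.Agent.Helper41.PD.Defs
import Pool.Agent.Helper41.LD4.Main
import Pool.Agent.Helper68.LD7.TTB1

/-!
# Project PD (prescribed densities): the first times of the stages are large
-/

set_option autoImplicit false

namespace Pool.Agent.Helper44.PD

open Set Filter Topology
open Pool.Agent.Helper41.LD3 (ll ll_le ll_pos)
open Pool.Agent.Helper41.LD4 (kp)
open Pool.Agent.Helper41.LD5 (fp)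
open Pool.Agent.Helper41.LD7
open Pool.Agent.Helper41.PD (F0)
open Pool.Agent.Helper68.LD7 (Tt_spec)

variable {X : ℕ} {A₀ x₁ x₂ : ℝ} {c : ℝ → ℝ}

theorem fp_le_two_pow {a : ℝ} (hA : 0 < A₀) (hA1 : A₀ ≤ 2 ^ X) (h1 : 1 ≤ a) (h2 : a ≤ 2 ^ X) (n : ℕ) :
    fp A₀ 1 n a ≤ 2 ^ ((X + 1) * n) := by
  unfold fp
  rcases Nat.eq_zero_or_pos n with rfl | hn
  · simp
  obtain ⟨m, rfl⟩ : ∃ m, n = m + 1 := ⟨n - 1, by omega⟩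
  have he : (((m + 1 : ℕ) : ℝ) / ((1 : ℕ) : ℝ) - 1) = (m : ℝ) := by push_cast; ring
  have hc : (((m + 1 : ℕ) : ℝ) / ((1 : ℕ) : ℝ)) ≤ 2 ^ (m + 1) := by
    rw [Nat.cast_one, div_one]
    exact_mod_cast (Nat.lt_two_pow_self (n := m + 1)).le
  rw [he, Real.rpow_natCast]
  have h0 : (0 : ℝ) ≤ ((m + 1 : ℕ) : ℝ) / ((1 : ℕ) : ℝ) := by positivity
  calc A₀ * (((m + 1 : ℕ) : ℝ) / ((1 : ℕ) : ℝ)) * a ^ m ≤ 2 ^ X * 2 ^ (m + 1) * (2 ^ X) ^ m := by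
        refine mul_le_mul (mul_le_mul hA1 hc h0 (by positivity)) (pow_le_pow_left₀ (by linarith) h2 m) (by positivity) (by positivity)
    _ = 2 ^ ((X + 1) * (m + 1)) := by
        rw [← pow_mul, ← pow_add, ← pow_add]
        congr 1
        ring

/-- the first time of a stage is at least `M / (X + 1)` or so if its window is not longer than `2 ^ (b - M)` -/
theorem le_n₀ (hF : (F0 X A₀ x₁ x₂ c).Ok) {K : ℕ} {a₀ ℓst : ℝ} (S : (F0 X A₀ x₁ x₂ c).St K a₀ ℓst) {M b : ℕ} (h : ℓst * 2 ^ M ≤ 2 ^ b) :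
    M ≤ b + (X + 1) * (F0 X A₀ x₁ x₂ c).n₀ K a₀ ℓst := by
  have h1 : (F0 X A₀ x₁ x₂ c).Th K ≤ fp A₀ 1 ((F0 X A₀ x₁ x₂ c).n₀ K a₀ ℓst) a₀ * ℓst := Tt_spec hF S.lo S.pos _
  have h2 : (1 : ℝ) ≤ (F0 X A₀ x₁ x₂ c).Th K := one_le_pow₀ (by norm_num)
  have ha1 : 1 ≤ a₀ := hF.h1.le.trans S.lo
  have ha2 : a₀ ≤ 2 ^ X := by
    have h3 : a₀ + ℓst ≤ x₂ := S.hi
    have h4 := S.pos
    have h5 : x₂ ≤ 2 ^ X := hF.hx2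
    linarith
  have h3 := fp_le_two_pow (X := X) hF.hA hF.hA1 ha1 ha2 ((F0 X A₀ x₁ x₂ c).n₀ K a₀ ℓst)
  have h4 : (2 : ℝ) ^ M ≤ 2 ^ (b + (X + 1) * (F0 X A₀ x₁ x₂ c).n₀ K a₀ ℓst) := by
    have hp : (0 : ℝ) < 2 ^ M := by positivity
    calc (2 : ℝ) ^ M = 1 * 2 ^ M := (one_mul _).symm
      _ ≤ (fp A₀ 1 ((F0 X A₀ x₁ x₂ c).n₀ K a₀ ℓst) a₀ * ℓst) * 2 ^ M := mul_le_mul_of_nonneg_right (h2.trans h1) hp.le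
      _ = fp A₀ 1 ((F0 X A₀ x₁ x₂ c).n₀ K a₀ ℓst) a₀ * (ℓst * 2 ^ M) := by ring
      _ ≤ 2 ^ ((X + 1) * (F0 X A₀ x₁ x₂ c).n₀ K a₀ ℓst) * 2 ^ b :=
          mul_le_mul h3 h (mul_nonneg S.pos.le hp.le) (by positivity)
      _ = 2 ^ (b + (X + 1) * (F0 X A₀ x₁ x₂ c).n₀ K a₀ ℓst) := by rw [← pow_add, add_comm]
  exact (pow_le_pow_iff_right₀ (by norm_num : (1 : ℝ) < 2)).1 h4

/-- the first times of the stages grow exponentially -/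
theorem n₀_low (hF : (F0 X A₀ x₁ x₂ c).Ok) {K₀ : ℕ} (hK₀ : 1 ≤ K₀) {ℓ₀ : ℝ} (hℓ₀ : 0 < ℓ₀) (hℓ₀1 : ℓ₀ ≤ 1) {σ : ℕ} {a₀ : ℝ}
    (S : (F0 X A₀ x₁ x₂ c).St (K₀ + σ) a₀ (ll 1 K₀ ℓ₀ (kp σ))) :
    2 ^ σ ≤ 1 + (X + 1) * (F0 X A₀ x₁ x₂ c).n₀ (K₀ + σ) a₀ (ll 1 K₀ ℓ₀ (kp σ)) := by
  have h1 : ll 1 K₀ ℓ₀ (kp σ) * 2 ^ kp σ ≤ 2 ^ 0 := by
    have h2 := ll_le (κ := 1) hℓ₀ hK₀ (kp σ)
    have hp : (0 : ℝ) < 2 ^ kp σ := by positivity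
    calc ll 1 K₀ ℓ₀ (kp σ) * 2 ^ kp σ ≤ (ℓ₀ * (1 / 2) ^ kp σ) * 2 ^ kp σ := mul_le_mul_of_nonneg_right h2 hp.le
      _ = ℓ₀ * ((1 / 2) * 2) ^ kp σ := by rw [mul_pow]; ring
      _ = ℓ₀ := by norm_num
      _ ≤ 2 ^ 0 := by simpa using hℓ₀1
  have h2 := le_n₀ hF S h1
  have h3 : kp σ + 1 = 2 ^ σ := by
    unfold kp
    have := Nat.one_le_two_pow (n := σ)
    omega
  omega

/-- the same as a bound for the logarithm -/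
theorem log_n₀_low (hF : (F0 X A₀ x₁ x₂ c).Ok) {K₀ : ℕ} (hK₀ : 1 ≤ K₀) {ℓ₀ : ℝ} (hℓ₀ : 0 < ℓ₀) (hℓ₀1 : ℓ₀ ≤ 1) {σ : ℕ} {a₀ : ℝ}
    (S : (F0 X A₀ x₁ x₂ c).St (K₀ + σ) a₀ (ll 1 K₀ ℓ₀ (kp σ))) {n : ℕ} (hn : (F0 X A₀ x₁ x₂ c).n₀ (K₀ + σ) a₀ (ll 1 K₀ ℓ₀ (kp σ)) ≤ n) (hn1 : 1 ≤ n) :
    σ * Real.log 2 - Real.log (X + 2) ≤ Real.log n := by
  have h1 := n₀_low hF hK₀ hℓ₀ hℓ₀1 S
  have h2 : (2 : ℝ) ^ σ ≤ (X + 2) * n := by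
    have h3 : 2 ^ σ ≤ (X + 2) * n := by
      calc 2 ^ σ ≤ 1 + (X + 1) * (F0 X A₀ x₁ x₂ c).n₀ (K₀ + σ) a₀ (ll 1 K₀ ℓ₀ (kp σ)) := h1
        _ ≤ n + (X + 1) * n := by gcongr
        _ = (X + 2) * n := by ring
    exact_mod_cast h3
  have hn0 : (0 : ℝ) < n := by exact_mod_cast hn1
  have h4 := Real.log_le_log (by positivity) h2
  rw [Real.log_pow, Real.log_mul (by positivity) hn0.ne'] at h4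
  linarith

/-- the first times of the stages tend to infinity -/
theorem n₀_ge {X : ℕ} {A₀ x₁ x₂ : ℝ} {c : ℝ → ℝ} (hF : (F0 X A₀ x₁ x₂ c).Ok) {K₀ : ℕ} {ℓ₀ : ℝ} (_hℓ₀ : 0 < ℓ₀) (N₁ : ℕ) :
    ∃ i : ℕ, ∀ σ ≥ i, ∀ a₀ : ℝ, (F0 X A₀ x₁ x₂ c).Big (K₀ + σ) → (F0 X A₀ x₁ x₂ c).St (K₀ + σ) a₀ (ll 1 K₀ ℓ₀ (kp σ)) →
      N₁ ≤ (F0 X A₀ x₁ x₂ c).n₀ (K₀ + σ) a₀ (ll 1 K₀ ℓ₀ (kp σ)) := by
  refine ⟨(X + 1) * N₁, fun σ hσ a₀ _ S => ?_⟩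
  have h1 := le_n₀ hF S (b := 0) (by simpa using S.sm)
  have h2 : σ ≤ (K₀ + σ) ^ 4 := by
    calc σ ≤ K₀ + σ := Nat.le_add_left _ _
      _ ≤ (K₀ + σ) ^ 4 := Nat.le_self_pow (by norm_num) _
  have h3 : (X + 1) * N₁ ≤ (X + 1) * (F0 X A₀ x₁ x₂ c).n₀ (K₀ + σ) a₀ (ll 1 K₀ ℓ₀ (kp σ)) := by omega
  exact Nat.le_of_mul_le_mul_left h3 (Nat.succ_pos X)

end Pool.Agent.Helper44.PD
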